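import Mathlib
import Pool.Agent.H326R2.Basic

/-!
# A criterion of Sophie Germain type for `x ^ (q r) + y ^ (p r) + z ^ (p q) = 0`
-/

set_option autoImplicit false

namespace Pool.Agent.TH21.PN

open Pool.Agent.H326R2

/-- `t` is auxiliary for the pairwise coprime odd numbers `p, q, r`. -/
structure Aux (p q r t : ℕ) : Prop where
  bp : ∀ a : ZMod t, a ≠ 0 → a ^ (q * r) ≠ (p : ZMod t)
  bq : ∀ a : ZMod t, a ≠ 0 → a ^ (p * r) ≠ (q : ZMod t)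
  br : ∀ a : ZMod t, a ≠ 0 → a ^ (p * q) ≠ (r : ZMod t)
  cp : ∀ u a : ZMod t, u ^ p = 1 → u ≠ 1 → a ^ (q * r) ≠ 1 - u
  cq : ∀ u a : ZMod t, u ^ q = 1 → u ≠ 1 → a ^ (p * r) ≠ 1 - u
  cr : ∀ u a : ZMod t, u ^ r = 1 → u ≠ 1 → a ^ (p * q) ≠ 1 - u
  main : ∀ x y z a b c : ZMod t, x ≠ 0 → y ≠ 0 → z ≠ 0 →
    y ^ r + z ^ q = a ^ (q * r) → x ^ r + z ^ p = b ^ (p * r) → x ^ q + y ^ p = c ^ (p * q) →
    x ^ (q * r) + y ^ (p * r) + z ^ (p * q) ≠ 0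

section field

variable {F : Type*} [Field F]

/-- An `m`-th power which is an `n`-th power. -/
lemma root_of_pow_eq {m n : ℕ} (hmn : Nat.Coprime m n) {x y : F} (hx : x ≠ 0) (hy : y ≠ 0)
    (h : x ^ n = y ^ m) : ∃ s : F, s ≠ 0 ∧ x = s ^ m := by
  have hb : (m : ℤ) * Nat.gcdA m n + (n : ℤ) * Nat.gcdB m n = 1 := by
    have := Nat.gcd_eq_gcd_ab m n
    rw [hmn] at this
    exact_mod_cast this.symm
  refine ⟨x ^ (Nat.gcdA m n) * y ^ (Nat.gcdB m n), mul_ne_zero (zpow_ne_zero _ hx)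
    (zpow_ne_zero _ hy), ?_⟩
  have h1 : (y ^ (Nat.gcdB m n)) ^ m = x ^ ((n : ℤ) * Nat.gcdB m n) := by
    rw [← zpow_natCast, ← zpow_mul, mul_comm (Nat.gcdB m n) (m : ℤ), zpow_mul, zpow_natCast, ← h,
      ← zpow_natCast, ← zpow_mul]
  rw [mul_pow, h1, ← zpow_natCast, ← zpow_mul, ← zpow_add₀ hx, mul_comm (Nat.gcdA m n) (m : ℤ), hb,
    zpow_one]

end field

lemma case_zero {P Q R t : ℕ} [Fact t.Prime] (hP : Odd P) (hQ : Odd Q) (hP0 : Q * R ≠ 0)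
    (hQR : Nat.Coprime Q R) (hPR : Nat.Coprime P R)
    (B : ∀ a : ZMod t, a ≠ 0 → a ^ (Q * R) ≠ (P : ZMod t))
    (C : ∀ u a : ZMod t, u ^ P = 1 → u ≠ 1 → a ^ (Q * R) ≠ 1 - u)
    (v w a a' b : ZMod t) (hv : v ≠ 0) (hw : w ≠ 0)
    (h1 : v ^ R + w ^ Q = a ^ (Q * R))
    (h2 : a = 0 → a' ^ (Q * R) = (P : ZMod t) * (v ^ R) ^ (P - 1)) (h0 : a = 0 → a' ≠ 0)
    (h3 : v ^ (P * R) + w ^ (P * Q) = 0) (h4 : w ^ P = b ^ (P * R)) : False := by
  rcases eq_or_ne a 0 with ha | ha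
  · have h5 : v ^ R = (-w) ^ Q := by
      rw [ha, zero_pow hP0] at h1
      rw [hQ.neg_pow]
      linear_combination h1
    obtain ⟨s, hs, hs2⟩ := root_of_pow_eq hQR hv (neg_ne_zero.2 hw) h5
    have h6 := h2 ha
    have h7 : (v ^ R) ^ (P - 1) = (s ^ (P - 1)) ^ (Q * R) := by
      rw [hs2, ← pow_mul, ← pow_mul, ← pow_mul]; congr 1; ring
    apply B (a' / s ^ (P - 1)) (div_ne_zero (h0 ha) (pow_ne_zero _ hs))
    rw [div_pow, h6, h7, mul_div_assoc, div_self (pow_ne_zero _ (pow_ne_zero _ hs)), mul_one]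
  · have hb : b ≠ 0 := by
      rintro rfl
      rcases Nat.eq_zero_or_pos (P * R) with h0 | h0
      · rcases Nat.mul_eq_zero.1 h0 with h0 | h0
        · subst h0; exact absurd hP (by decide)
        · exact hP0 (by rw [h0, Nat.mul_zero])
      · rw [zero_pow h0.ne'] at h4
        exact hw (pow_eq_zero_iff (by rintro rfl; exact absurd hP (by decide)) |>.1 h4)
    have h5 : w ^ P = (b ^ P) ^ R := by rw [← pow_mul]; exact h4
    obtain ⟨s, hs, hs2⟩ := root_of_pow_eq hPR.symm hw (pow_ne_zero _ hb) h5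
    have hwQ : w ^ Q = s ^ (Q * R) := by rw [hs2, ← pow_mul]; congr 1; ring
    have hwQ0 : w ^ Q ≠ 0 := pow_ne_zero _ hw
    refine C (-(v ^ R) / w ^ Q) (a / s) ?_ ?_ ?_
    · have h6 : v ^ (P * R) = -(w ^ (P * Q)) := by linear_combination h3
      rw [div_pow, hP.neg_pow, ← pow_mul, ← pow_mul, Nat.mul_comm R P, Nat.mul_comm Q P, h6, neg_neg,
        div_self (pow_ne_zero _ hw)]
    · intro h6
      rw [div_eq_one_iff_eq hwQ0] at h6
      have h7 : a ^ (Q * R) = 0 := by rw [← h1, ← h6]; ring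
      exact ha (pow_eq_zero_iff hP0 |>.1 h7)
    · rw [div_pow, ← h1, ← hwQ]
      field_simp
      ring

lemma fac {P Q R : ℕ} (hP : Odd P) (hQR : Odd (Q * R)) (U V W : ℤ) (hVW : IsCoprime V W)
    (hU : U ≠ 0) (hUP : IsCoprime U (P : ℤ))
    (h : U ^ (Q * R) + V ^ (P * R) + W ^ (P * Q) = 0) :
    ∃ a a' : ℤ, V ^ R + W ^ Q = a ^ (Q * R) ∧ cof P (V ^ R) (-(W ^ Q)) = a' ^ (Q * R) ∧
      a * a' = -U ∧ IsCoprime a a' := by
  have e1 : (V ^ R) ^ P - (-(W ^ Q)) ^ P = (-U) ^ (Q * R) := by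
    rw [hP.neg_pow, hQR.neg_pow, ← pow_mul, ← pow_mul, Nat.mul_comm R P, Nat.mul_comm Q P]
    linear_combination h
  have e2 : (V ^ R - -(W ^ Q)) * cof P (V ^ R) (-(W ^ Q)) = (-U) ^ (Q * R) := by
    rw [sub_mul_cof, e1]
  have hne : (-U) ^ (Q * R) ≠ 0 := pow_ne_zero _ (neg_ne_zero.2 hU)
  have hc : IsCoprime (V ^ R - -(W ^ Q)) (P : ℤ) := by
    apply IsCoprime.of_isCoprime_of_dvd_left (hUP.neg_left.pow_left (m := Q * R))
    exact Dvd.intro _ e2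
  have hcop := coprime_sub_cof P (V ^ R) (-(W ^ Q)) (hVW.pow.neg_right) hc (by rw [e1]; exact hne)
  obtain ⟨a, a', h1, h2, h3⟩ := split_pow hcop hQR e2
  have hQR0 : 0 < Q * R := hQR.pos
  refine ⟨a, a', by rw [← h1]; ring, h2, h3, ?_⟩
  rw [h1, h2] at hcop
  exact (IsCoprime.pow_iff hQR0 hQR0).1 hcop

theorem main (p q r t : ℕ) (hp : Odd p) (hq : Odd q) (hr : Odd r) (hp1 : 1 < p) (hq1 : 1 < q)
    (hr1 : 1 < r) (hpq : Nat.Coprime p q) (hpr : Nat.Coprime p r) (hqr : Nat.Coprime q r)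
    (ht : t.Prime) (h : Aux p q r t) (X Y Z : ℤ) (hXY : IsCoprime X Y) (hXZ : IsCoprime X Z)
    (hYZ : IsCoprime Y Z) (heq : X ^ (q * r) + Y ^ (p * r) + Z ^ (p * q) = 0)
    (hXp : IsCoprime X (p : ℤ)) (hYq : IsCoprime Y (q : ℤ)) (hZr : IsCoprime Z (r : ℤ)) : False := by
  have : Fact t.Prime := ⟨ht⟩
  have hne : ∀ (U : ℤ) (n : ℕ), 1 < n → IsCoprime U (n : ℤ) → U ≠ 0 := by
    rintro U n hn hc rfl
    rw [isCoprime_zero_left, Int.isUnit_iff] at hc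
    omega
  have hX0 := hne X p hp1 hXp
  have hY0 := hne Y q hq1 hYq
  have hZ0 := hne Z r hr1 hZr
  obtain ⟨a, a', ha, ha', haa, hac⟩ := fac hp (hq.mul hr) X Y Z hYZ hX0 hXp heq
  obtain ⟨b, b', hb, hb', hbb, hbc⟩ := fac (P := q) (Q := p) (R := r) hq (hp.mul hr) Y X Z hXZ hY0 hYq
    (by rw [Nat.mul_comm q p]; linear_combination heq)
  obtain ⟨c, c', hc, hc', hcc, hcco⟩ := fac (P := r) (Q := p) (R := q) hr (hp.mul hq) Z X Y hXY hZ0 hZr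
    (by rw [Nat.mul_comm r q, Nat.mul_comm r p]; linear_combination heq)
  -- reduce modulo `t`
  have hcast : ∀ U V : ℤ, U = V → ((U : ℤ) : ZMod t) = (V : ZMod t) := fun U V e => by rw [e]
  have Ea := hcast _ _ ha
  have Eb := hcast _ _ hb
  have Ec := hcast _ _ hc
  have Eq0 := hcast _ _ heq
  have Eaa := hcast _ _ haa
  have Ebb := hcast _ _ hbb
  have Ecc := hcast _ _ hcc
  push_cast at Ea Eb Ec Eq0 Eaa Ebb Ecc
  have hz : ∀ U V : ℤ, IsCoprime U V → ((U : ℤ) : ZMod t) = 0 → ((V : ℤ) : ZMod t) ≠ 0 := by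
    intro U V hc h1 h2
    rw [ZMod.intCast_zmod_eq_zero_iff_dvd] at h1 h2
    have := hc.isUnit_of_dvd' h1 h2
    rw [Int.isUnit_iff] at this
    have := ht.one_lt
    omega
  have hcof : ∀ (P Q R : ℕ) (V W d d' : ℤ), Odd P → V ^ R + W ^ Q = d ^ (Q * R) → Q * R ≠ 0 →
      cof P (V ^ R) (-(W ^ Q)) = d' ^ (Q * R) → ((d : ℤ) : ZMod t) = 0 →
      ((d' : ℤ) : ZMod t) ^ (Q * R) = (P : ZMod t) * ((V : ZMod t) ^ R) ^ (P - 1) := by
    intro P Q R V W d d' hP e1 e0 e2 e3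
    have e4 : ((V ^ R : ℤ) : ZMod t) = ((-(W ^ Q) : ℤ) : ZMod t) := by
      have := hcast _ _ e1
      push_cast at this ⊢
      rw [e3, zero_pow e0] at this
      linear_combination this
    have e5 := cof_cast_self P (V ^ R) (-(W ^ Q)) e4
    rw [← e4, e2] at e5
    push_cast at e5
    exact e5
  have hqr0 : q * r ≠ 0 := Nat.mul_ne_zero (by omega) (by omega)
  have hpr0 : p * r ≠ 0 := Nat.mul_ne_zero (by omega) (by omega)
  have hpq0 : p * q ≠ 0 := Nat.mul_ne_zero (by omega) (by omega)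
  rcases eq_or_ne ((X : ℤ) : ZMod t) 0 with hX | hX
  · have hy := hz X Y hXY hX
    have hz' := hz X Z hXZ hX
    rw [hX, zero_pow (by omega), zero_add] at Eb
    rw [hX, zero_pow hqr0, zero_add] at Eq0
    exact case_zero hp hq hqr0 hqr hpr h.bp h.cp (Y : ZMod t) (Z : ZMod t) (a : ZMod t)
      (a' : ZMod t) (b : ZMod t) hy hz' Ea (hcof p q r Y Z a a' hp ha hqr0 ha') (hz a a' hac) Eq0 Eb
  rcases eq_or_ne ((Y : ℤ) : ZMod t) 0 with hY | hY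
  · have hz' := hz Y Z hYZ hY
    rw [hY, zero_pow (by omega), zero_add] at Ea
    rw [hY, zero_pow hpr0, add_zero, Nat.mul_comm p q] at Eq0
    exact case_zero hq hp hpr0 hpr hqr h.bq h.cq (X : ZMod t) (Z : ZMod t) (b : ZMod t)
      (b' : ZMod t) (a : ZMod t) hX hz' Eb (hcof q p r X Z b b' hq hb hpr0 hb') (hz b b' hbc) Eq0 Ea
  rcases eq_or_ne ((Z : ℤ) : ZMod t) 0 with hZ | hZ
  · rw [hZ, zero_pow (by omega), add_zero] at Ea
    rw [hZ, zero_pow hpq0, add_zero, Nat.mul_comm q r, Nat.mul_comm p r] at Eq0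
    exact case_zero hr hp hpq0 hpq hqr.symm h.br h.cr (X : ZMod t) (Y : ZMod t) (c : ZMod t)
      (c' : ZMod t) (a : ZMod t) hX hY Ec (hcof r p q X Y c c' hr hc hpq0 hc') (hz c c' hcco) Eq0
      (by rw [Nat.mul_comm r q]; exact Ea)
  exact h.main _ _ _ _ _ _ hX hY hZ Ea Eb Ec Eq0

end Pool.Agent.TH21.PN
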