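import Mathlib
import Pool.Agent.TH21.PN.Crit

/-!
# A Boolean check of the auxiliary conditions
-/

set_option autoImplicit false

namespace Pool.Agent.TH21.PN

/-- `x ^ e` modulo `t` -/
def pw (t x e : ℕ) : ℕ :=
  Nat.mod (Nat.mul (Nat.pow (Nat.mod (Nat.pow x (Nat.div e 256)) t) 256) (Nat.pow x (Nat.mod e 256)))
    t

lemma pw_def (t x e : ℕ) : pw t x e = (x ^ (e / 256) % t) ^ 256 * x ^ (e % 256) % t := rfl

lemma pw_cast (t x e : ℕ) : ((pw t x e : ℕ) : ZMod t) = (x : ZMod t) ^ e := by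
  rw [pw_def]
  rw [ZMod.natCast_mod, Nat.cast_mul, Nat.cast_pow, ZMod.natCast_mod, Nat.cast_pow, Nat.cast_pow,
    ← pow_mul, ← pow_add, Nat.div_add_mod' e 256]

lemma pw_lt {t : ℕ} (ht : 0 < t) (x e : ℕ) : pw t x e < t := Nat.mod_lt _ ht

/-- check `f` on `[b, b + 2 ^ k)` -/
def allB (f : ℕ → Bool) (k : ℕ) : ℕ → Bool :=
  Nat.rec (fun b => f b) (fun k ih b => and (ih b) (ih (Nat.add b (Nat.pow 2 k)))) k

lemma allB_zero (f : ℕ → Bool) (b : ℕ) : allB f 0 b = f b := rfl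

lemma allB_succ (f : ℕ → Bool) (k b : ℕ) :
    allB f (k + 1) b = (allB f k b && allB f k (b + 2 ^ k)) := rfl

lemma allB_spec {f : ℕ → Bool} : ∀ {k b : ℕ}, allB f k b = true → ∀ i, b ≤ i → i < b + 2 ^ k →
    f i = true
  | 0, b, h, i, h1, h2 => by
    have : i = b := by
      rw [pow_zero] at h2
      omega
    rw [this]; exact h
  | k + 1, b, h, i, h1, h2 => by
    rw [allB_succ, Bool.and_eq_true] at h
    rw [pow_succ] at h2
    rcases lt_or_ge i (b + 2 ^ k) with h3 | h3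
    · exact allB_spec h.1 i h1 h3
    · exact allB_spec h.2 i h3 (by omega)

lemma allB_lt {f : ℕ → Bool} {n : ℕ} (h : allB f (Nat.log2 n + 1) 0 = true) (i : ℕ) (hi : i < n) :
    f i = true :=
  allB_spec h i (Nat.zero_le _) (by have := Nat.lt_log2_self (n := n); omega)

/-- trial division -/
def chkPrime (t : ℕ) : Bool :=
  Nat.ble 2 t && allB (fun m => Nat.ble m 1 || Nat.blt t (m * m) || !(Nat.beq (t % m) 0))
    (Nat.log2 t / 2 + 1) 0

lemma chkPrime_sound {t : ℕ} (h : chkPrime t = true) : t.Prime := by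
  unfold chkPrime at h
  rw [Bool.and_eq_true] at h
  obtain ⟨h2, h3⟩ := h
  rw [Nat.prime_def_le_sqrt]
  refine ⟨Nat.le_of_ble_eq_true h2, ?_⟩
  intro m hm hms hd
  have hmm : m * m ≤ t := Nat.le_sqrt.1 hms
  have hlt : m < 0 + 2 ^ (Nat.log2 t / 2 + 1) := by
    by_contra hc
    rw [not_lt, zero_add] at hc
    have h4 : 2 ^ (Nat.log2 t / 2 + 1) * 2 ^ (Nat.log2 t / 2 + 1) ≤ m * m := Nat.mul_le_mul hc hc
    rw [← pow_add] at h4
    have h5 : t < 2 ^ (Nat.log2 t + 1) := Nat.lt_log2_self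
    have h6 : 2 ^ (Nat.log2 t + 1) ≤ 2 ^ (Nat.log2 t / 2 + 1 + (Nat.log2 t / 2 + 1)) :=
      Nat.pow_le_pow_right (by norm_num) (by omega)
    omega
  have h7 := allB_spec h3 m (Nat.zero_le _) hlt
  simp only [Bool.or_eq_true, Bool.not_eq_true'] at h7
  rcases h7 with (h8 | h8) | h8
  · have := Nat.le_of_ble_eq_true h8
    omega
  · rw [Nat.blt_eq] at h8
    omega
  · have h9 : t % m = 0 := Nat.mod_eq_zero_of_dvd hd
    rw [h9] at h8
    exact absurd h8 (by decide)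

/-- fast membership -/
def memb (n : ℕ) : List ℕ → Bool
  | [] => false
  | a :: l => Nat.beq a n || memb n l

lemma mem_of_memb {n : ℕ} {l : List ℕ} (h : memb n l = true) : n ∈ l := by
  induction l with
  | nil => cases h
  | cons a l ih =>
    unfold memb at h
    rw [Bool.or_eq_true] at h
    rcases h with h | h
    · rw [Nat.eq_of_beq_eq_true h]; exact List.mem_cons_self ..
    · exact List.mem_cons_of_mem _ (ih h)

/-- not congruent to `1` -/
def n1 (t x e : ℕ) : Bool := !(Nat.beq (pw t x e) 1)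

section

variable {t : ℕ} [Fact t.Prime]

lemma pw_eq_of_cast {x y e f : ℕ} (h : (x : ZMod t) ^ e = (y : ZMod t) ^ f) :
    pw t x e = pw t y f := by
  have h1 : ((pw t x e : ℕ) : ZMod t) = (pw t y f : ℕ) := by rw [pw_cast, pw_cast, h]
  have h2 := (ZMod.natCast_eq_natCast_iff' _ _ _).1 h1
  have ht : 0 < t := (Fact.out : t.Prime).pos
  rwa [Nat.mod_eq_of_lt (pw_lt ht _ _), Nat.mod_eq_of_lt (pw_lt ht _ _)] at h2

lemma pw_eq_one_of_cast {x e : ℕ} (h : (x : ZMod t) ^ e = 1) : pw t x e = 1 := by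
  have h1 : ((pw t x e : ℕ) : ZMod t) = (1 : ℕ) := by rw [pw_cast, h, Nat.cast_one]
  have h2 := (ZMod.natCast_eq_natCast_iff' _ _ _).1 h1
  have ht : 1 < t := (Fact.out : t.Prime).one_lt
  rwa [Nat.mod_eq_of_lt (pw_lt (by omega) _ _), Nat.mod_eq_of_lt ht] at h2

lemma n1_sound {x e : ℕ} (h : n1 t x e = true) : (x : ZMod t) ^ e ≠ 1 := by
  intro h1
  unfold n1 at h
  rw [pw_eq_one_of_cast h1] at h
  exact absurd h (by decide)

lemma pow_exp {m E : ℕ} (hE : t - 1 ∣ m * E) {a : ZMod t} (ha : a ≠ 0) : (a ^ m) ^ E = 1 := by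
  obtain ⟨k, hk⟩ := hE
  rw [← pow_mul, hk, pow_mul, ZMod.pow_card_sub_one_eq_one ha, one_pow]

lemma nonpow {m E x : ℕ} (hE : t - 1 ∣ m * E) (h : n1 t x E = true) (a : ZMod t) (ha : a ≠ 0) :
    a ^ m ≠ (x : ZMod t) := by
  intro h1
  apply n1_sound h
  rw [← h1]
  exact pow_exp hE ha

/-- the powers `z ^ i`, `0 < i < n`, are not `1` -/
def chkRoots (t n z E : ℕ) : Bool :=
  Nat.beq (pw t z n) 1 && allB (fun i => Nat.beq i 0 || Nat.ble n i ||
    (n1 t z i && n1 t (1 + (t - pw t z i)) E)) (Nat.log2 n + 1) 0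

lemma prim_of {z n : ℕ} (hn : 0 < n) (h1 : pw t z n = 1)
    (h2 : ∀ i, 0 < i → i < n → n1 t z i = true) : IsPrimitiveRoot (z : ZMod t) n := by
  refine IsPrimitiveRoot.mk_of_lt _ hn ?_ ?_
  · rw [← pw_cast, h1, Nat.cast_one]
  · intro l hl hln
    exact n1_sound (h2 l hl hln)

lemma chkRoots_sound {m n z E : ℕ} (hn : 0 < n) (hE : t - 1 ∣ m * E)
    (h : chkRoots t n z E = true) (u a : ZMod t) (hu : u ^ n = 1) (hu1 : u ≠ 1) :
    a ^ m ≠ 1 - u ∨ m = 0 := by
  rcases Nat.eq_zero_or_pos m with hm | hm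
  · exact Or.inr hm
  left
  unfold chkRoots at h
  rw [Bool.and_eq_true] at h
  obtain ⟨h1, h2⟩ := h
  have h3 : ∀ i, 0 < i → i < n → n1 t z i = true ∧ n1 t (1 + (t - pw t z i)) E = true := by
    intro i hi hin
    have h4 := allB_lt h2 i hin
    simp only [Bool.or_eq_true, Bool.and_eq_true] at h4
    rcases h4 with (h5 | h5) | h5
    · have := Nat.eq_of_beq_eq_true h5
      omega
    · have := Nat.le_of_ble_eq_true h5
      omega
    · exact h5
  have hprim := prim_of hn (Nat.eq_of_beq_eq_true h1) (fun i hi hin => (h3 i hi hin).1)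
  have : NeZero n := ⟨hn.ne'⟩
  obtain ⟨i, hin, hi⟩ := hprim.eq_pow_of_pow_eq_one hu
  have hi0 : 0 < i := by
    rcases Nat.eq_zero_or_pos i with h0 | h0
    · rw [h0, pow_zero] at hi
      exact absurd hi.symm hu1
    · exact h0
  have h5 := n1_sound (h3 i hi0 hin).2
  have h6 : ((1 + (t - pw t z i) : ℕ) : ZMod t) = 1 - u := by
    have hlt := pw_lt (Fact.out : t.Prime).pos z i
    rw [Nat.cast_add, Nat.cast_sub hlt.le, ZMod.natCast_self, pw_cast, hi, Nat.cast_one]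
    ring
  rw [h6] at h5
  intro h7
  have ha : a ≠ 0 := by
    rintro rfl
    rw [zero_pow hm.ne'] at h7
    exact hu1 (sub_eq_zero.1 h7.symm).symm
  apply h5
  rw [← h7]
  exact pow_exp hE ha

/-- the test on one nonzero `r`-th power `o = g ^ i`; here `w = o ^ E` -/
def leaf (t E M : ℕ) (f : ℕ → Bool) (i o w : ℕ) : Bool :=
  or (Nat.beq i 0) (or (Nat.ble M i) (and (not (Nat.beq o 1))
    (or (not (Nat.beq (pw t (Nat.pred o) E) w)) (f (Nat.pred o)))))

/-- the test `leaf` on `2 ^ k` consecutive powers of `g` -/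
def candT (t g h E M : ℕ) (f : ℕ → Bool) (k : ℕ) : ℕ → ℕ → ℕ → Bool :=
  Nat.rec (fun i o w => leaf t E M f i o w)
    (fun k ih i o w => and (ih i o w) (ih (Nat.add i (Nat.pow 2 k))
      (Nat.mod (Nat.mul o (Nat.mod (Nat.pow g (Nat.pow 2 k)) t)) t)
      (Nat.mod (Nat.mul w (Nat.mod (Nat.pow h (Nat.pow 2 k)) t)) t))) k

lemma candT_zero (t g h E M : ℕ) (f : ℕ → Bool) (i o w : ℕ) :
    candT t g h E M f 0 i o w = leaf t E M f i o w := rfl

lemma candT_succ (t g h E M : ℕ) (f : ℕ → Bool) (k i o w : ℕ) :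
    candT t g h E M f (k + 1) i o w = (candT t g h E M f k i o w &&
      candT t g h E M f k (i + 2 ^ k) (o * (g ^ 2 ^ k % t) % t) (w * (h ^ 2 ^ k % t) % t)) := rfl

lemma candT_spec {g h E M : ℕ} {f : ℕ → Bool} : ∀ {k i o w : ℕ},
    candT t g h E M f k i o w = true → (o : ZMod t) = (g : ZMod t) ^ i → o < t →
    (w : ZMod t) = (h : ZMod t) ^ i → w < t → ∀ j, i ≤ j → j < i + 2 ^ k →
    ∃ o' w' : ℕ, (o' : ZMod t) = (g : ZMod t) ^ j ∧ o' < t ∧ (w' : ZMod t) = (h : ZMod t) ^ j ∧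
      w' < t ∧ leaf t E M f j o' w' = true
  | 0, i, o, w, h0, h1, h2, h3, h4, j, h5, h6 => by
    have : j = i := by
      rw [pow_zero] at h6
      omega
    subst this
    exact ⟨o, w, h1, h2, h3, h4, h0⟩
  | k + 1, i, o, w, h0, h1, h2, h3, h4, j, h5, h6 => by
    rw [candT_succ, Bool.and_eq_true] at h0
    rw [pow_succ] at h6
    have ht : 0 < t := (Fact.out : t.Prime).pos
    rcases lt_or_ge j (i + 2 ^ k) with h7 | h7
    · exact candT_spec h0.1 h1 h2 h3 h4 j h5 h7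
    · refine candT_spec h0.2 ?_ (Nat.mod_lt _ ht) ?_ (Nat.mod_lt _ ht) j h7 (by omega)
      · rw [ZMod.natCast_mod, Nat.cast_mul, ZMod.natCast_mod, Nat.cast_pow, h1, ← pow_add]
      · rw [ZMod.natCast_mod, Nat.cast_mul, ZMod.natCast_mod, Nat.cast_pow, h3, ← pow_add]

/-- the nonzero `r`-th powers `o ≠ 1` with `(o - 1) / o` a `q`-th power satisfy `f (o - 1)` -/
def chkCand (t q r g : ℕ) (f : ℕ → Bool) : Bool :=
  and (Nat.beq (pw t g (Nat.div (Nat.pred t) r)) 1)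
    (candT t g (pw t g (Nat.div (Nat.pred t) q)) (Nat.div (Nat.pred t) q) (Nat.div (Nat.pred t) r)
      f (Nat.succ (Nat.log2 (Nat.div (Nat.pred t) r))) 0 1 1)

lemma chkCand_def (t q r g : ℕ) (f : ℕ → Bool) : chkCand t q r g f =
    (Nat.beq (pw t g ((t - 1) / r)) 1 && candT t g (pw t g ((t - 1) / q)) ((t - 1) / q)
      ((t - 1) / r) f (Nat.log2 ((t - 1) / r) + 1) 0 1 1) := rfl

lemma chkCand_sound {q r g : ℕ} {f : ℕ → Bool} (hr : 0 < (t - 1) / r)
    (hr' : r * ((t - 1) / r) = t - 1)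
    (h : chkCand t q r g f = true) (s v : ZMod t) (hv : v ≠ 0) (hs0 : s ≠ 0)
    (hs : 1 + s = v ^ r) (hpow : s ^ ((t - 1) / q) = (1 + s) ^ ((t - 1) / q)) :
    ∃ n : ℕ, f n = true ∧ s = (n : ZMod t) := by
  rw [chkCand_def, Bool.and_eq_true] at h
  obtain ⟨h1, h2⟩ := h
  have ht1 : 1 < t := (Fact.out : t.Prime).one_lt
  have hlog : (t - 1) / r < 0 + 2 ^ (Nat.log2 ((t - 1) / r) + 1) := by
    rw [zero_add]; exact Nat.lt_log2_self
  have h3 : ∀ i, 0 < i → i < (t - 1) / r → ∃ o' w' : ℕ, (o' : ZMod t) = (g : ZMod t) ^ i ∧ o' < t ∧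
      (w' : ZMod t) = ((pw t g ((t - 1) / q) : ℕ) : ZMod t) ^ i ∧ w' < t ∧ o' ≠ 1 ∧
      ((pw t (Nat.pred o') ((t - 1) / q)) ≠ w' ∨ f (Nat.pred o') = true) := by
    intro i hi hin
    obtain ⟨o', w', g1, g2, g3, g4, g5⟩ := candT_spec h2 (by rw [Nat.cast_one, pow_zero]) ht1
      (by rw [Nat.cast_one, pow_zero]) ht1 i (Nat.zero_le _) (by omega)
    refine ⟨o', w', g1, g2, g3, g4, ?_⟩
    unfold leaf at g5
    rw [Bool.or_eq_true, Bool.or_eq_true, Bool.and_eq_true, Bool.or_eq_true] at g5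
    rcases g5 with g6 | g6 | ⟨g6, g7⟩
    · have := Nat.eq_of_beq_eq_true g6
      omega
    · have := Nat.le_of_ble_eq_true g6
      omega
    · refine ⟨?_, ?_⟩
      · rintro rfl
        exact absurd g6 (by decide)
      · rcases g7 with g7 | g7
        · left
          intro g8
          rw [g8, Nat.beq_refl] at g7
          exact absurd g7 (by decide)
        · right; exact g7
  have hprim : IsPrimitiveRoot (g : ZMod t) ((t - 1) / r) := by
    refine IsPrimitiveRoot.mk_of_lt _ hr ?_ ?_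
    · rw [← pw_cast, Nat.eq_of_beq_eq_true h1, Nat.cast_one]
    · intro l hl hln h4
      obtain ⟨o', w', g1, g2, g3, g4, g5, g6⟩ := h3 l hl hln
      apply g5
      rw [h4] at g1
      have h5 : ((o' : ℕ) : ZMod t) = ((1 : ℕ) : ZMod t) := by rw [g1, Nat.cast_one]
      have h6 := (ZMod.natCast_eq_natCast_iff' _ _ _).1 h5
      rwa [Nat.mod_eq_of_lt g2, Nat.mod_eq_of_lt ht1] at h6
  have : NeZero ((t - 1) / r) := ⟨hr.ne'⟩
  have hoM : (1 + s) ^ ((t - 1) / r) = 1 := by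
    rw [hs, ← pow_mul, hr']
    exact ZMod.pow_card_sub_one_eq_one hv
  obtain ⟨i, hin, hi⟩ := hprim.eq_pow_of_pow_eq_one hoM
  have hi0 : 0 < i := by
    rcases Nat.eq_zero_or_pos i with h0 | h0
    · rw [h0, pow_zero] at hi
      exact absurd (by linear_combination -hi) hs0
    · exact h0
  obtain ⟨o', w', g1, g2, g3, g4, g5, g6⟩ := h3 i hi0 hin
  have hpos : 0 < o' := by
    rcases Nat.eq_zero_or_pos o' with h0 | h0
    · exfalso
      rw [h0, Nat.cast_zero, hi, hs] at g1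
      exact pow_ne_zero _ hv g1.symm
    · exact h0
  have h5 : ((Nat.pred o' : ℕ) : ZMod t) = s := by
    rw [Nat.pred_eq_sub_one, Nat.cast_sub hpos, g1, hi, Nat.cast_one]
    ring
  rcases g6 with g6 | g6
  · exfalso
    apply g6
    have h6 : ((pw t (Nat.pred o') ((t - 1) / q) : ℕ) : ZMod t) = (w' : ZMod t) := by
      rw [pw_cast, h5, hpow, g3, pw_cast, ← hi, ← pow_mul, ← pow_mul, Nat.mul_comm]
    have h7 := (ZMod.natCast_eq_natCast_iff' _ _ _).1 h6
    rwa [Nat.mod_eq_of_lt (pw_lt (by omega) _ _), Nat.mod_eq_of_lt g4] at h7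
  · exact ⟨_, g6, h5.symm⟩

end

/-- the conditions which do not depend on the exact value of `p`; here `d = gcd (p, t - 1)` -/
def chkBase (t q r zq zr d : ℕ) : Bool :=
  Nat.beq (q * r * ((t - 1) / (q * r))) (t - 1) &&
  Nat.beq (d * r * ((t - 1) / (d * r))) (t - 1) &&
  Nat.beq (d * q * ((t - 1) / (d * q))) (t - 1) &&
  Nat.beq (r * ((t - 1) / r)) (t - 1) &&
  Nat.beq (q * ((t - 1) / q)) (t - 1) &&
  n1 t q ((t - 1) / (d * r)) && n1 t r ((t - 1) / (d * q)) &&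
  chkRoots t q zq ((t - 1) / (d * r)) && chkRoots t r zr ((t - 1) / (d * q))

/-- the condition on `p` for one `s` -/
def Cand (t q r p : ℕ) (s : ZMod t) : Prop :=
  1 + s ^ p = 0 ∨ (1 + s ^ p) ^ ((t - 1) / (q * r)) ≠ ((1 + s) ^ p) ^ ((t - 1) / (q * r))

/-- conditions on `p` -/
structure CondP (t q r p : ℕ) : Prop where
  b : (p : ZMod t) ^ ((t - 1) / (q * r)) ≠ 1
  c : ∀ u a : ZMod t, u ^ p = 1 → u ≠ 1 → a ^ (q * r) ≠ 1 - u
  m : ∀ s v : ZMod t, v ≠ 0 → s ≠ 0 → 1 + s = v ^ r →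
    s ^ ((t - 1) / q) = (1 + s) ^ ((t - 1) / q) → Cand t q r p s

theorem aux_of {t q r zq zr d p : ℕ} (ht : t.Prime) (hqo : Odd q) (hro : Odd r)
    (hp : Odd p) (h : chkBase t q r zq zr d = true) (hd : d ∣ p) (hP : CondP t q r p) :
    Aux p q r t := by
  have : Fact t.Prime := ⟨ht⟩
  have hq : 0 < q := hqo.pos
  have hr : 0 < r := hro.pos
  unfold chkBase at h
  simp only [Bool.and_eq_true] at h
  obtain ⟨⟨⟨⟨⟨⟨⟨⟨h2, h3⟩, h4⟩, h5⟩, h6⟩, h7⟩, h8⟩, h9⟩, h10⟩ := h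
  have e2 := Nat.eq_of_beq_eq_true h2
  have e3 := Nat.eq_of_beq_eq_true h3
  have e4 := Nat.eq_of_beq_eq_true h4
  have e6 := Nat.eq_of_beq_eq_true h6
  have f1 : t - 1 ∣ q * r * ((t - 1) / (q * r)) := by rw [e2]
  have f2 : t - 1 ∣ p * r * ((t - 1) / (d * r)) := by
    obtain ⟨k, hk⟩ := hd
    refine ⟨k, ?_⟩
    calc p * r * ((t - 1) / (d * r)) = (d * r * ((t - 1) / (d * r))) * k := by
          rw [hk]; ring
      _ = _ := by rw [e3]
  have f3 : t - 1 ∣ p * q * ((t - 1) / (d * q)) := by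
    obtain ⟨k, hk⟩ := hd
    refine ⟨k, ?_⟩
    calc p * q * ((t - 1) / (d * q)) = (d * q * ((t - 1) / (d * q))) * k := by
          rw [hk]; ring
      _ = _ := by rw [e4]
  have hp0 : 0 < p := hp.pos
  refine ⟨?_, ?_, ?_, hP.c, ?_, ?_, ?_⟩
  · intro a ha h12
    apply hP.b
    rw [← h12]
    exact pow_exp f1 ha
  · exact fun a ha => nonpow f2 h7 a ha
  · exact fun a ha => nonpow f3 h8 a ha
  · intro u a hu hu1
    exact (chkRoots_sound hq f2 h9 u a hu hu1).resolve_right (Nat.mul_ne_zero hp0.ne' hr.ne')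
  · intro u a hu hu1
    exact (chkRoots_sound hr f3 h10 u a hu hu1).resolve_right (Nat.mul_ne_zero hp0.ne' hq.ne')
  · intro x y z a b c hx hy hz h12 _ _ h13
    have hyr : y ^ r ≠ 0 := pow_ne_zero _ hy
    -- `a` is not zero
    have ha : a ≠ 0 := by
      rintro rfl
      rw [zero_pow (Nat.mul_ne_zero hq.ne' hr.ne')] at h12
      have h14 : y ^ r = -(z ^ q) := by linear_combination h12
      have h15 : y ^ (p * r) = -(z ^ (p * q)) := by
        rw [Nat.mul_comm p r, pow_mul, h14, hp.neg_pow, ← pow_mul, Nat.mul_comm q p]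
      apply pow_ne_zero (q * r) hx
      linear_combination h13 - h15
    have ho : 1 + z ^ q / y ^ r = (a ^ q / y) ^ r := by
      rw [div_pow, ← pow_mul, ← h12]
      field_simp
    have hpow : (z ^ q / y ^ r) ^ ((t - 1) / q) = (1 + z ^ q / y ^ r) ^ ((t - 1) / q) := by
      have e7 : a ^ (q * (r * ((t - 1) / q))) = 1 := by
        have e8 : q * (r * ((t - 1) / q)) = (t - 1) * r := by
          rw [← Nat.mul_assoc, Nat.mul_comm q r, Nat.mul_assoc, e6, Nat.mul_comm]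
        rw [e8, pow_mul, ZMod.pow_card_sub_one_eq_one ha, one_pow]
      rw [ho, div_pow, div_pow, div_pow, ← pow_mul, e6, ← pow_mul, ZMod.pow_card_sub_one_eq_one hz,
        ← pow_mul, ← pow_mul, e7]
    have hap : a ^ p ≠ 0 := pow_ne_zero _ ha
    have hv : (-x) / a ^ p ≠ 0 := div_ne_zero (neg_ne_zero.2 hx) hap
    have h14 : 1 + (z ^ q / y ^ r) ^ p = ((a ^ q / y) ^ r) ^ p * ((-x) / a ^ p) ^ (q * r) := by
      have e8 : y ^ (p * r) ≠ 0 := pow_ne_zero _ hy
      have e9 : a ^ (q * r * p) ≠ 0 := pow_ne_zero _ ha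
      have g1 : (z ^ q / y ^ r) ^ p = z ^ (p * q) / y ^ (p * r) := by
        rw [div_pow, ← pow_mul, ← pow_mul, Nat.mul_comm q p, Nat.mul_comm r p]
      have g2 : ((a ^ q / y) ^ r) ^ p = a ^ (q * r * p) / y ^ (p * r) := by
        rw [← pow_mul, div_pow, ← pow_mul, Nat.mul_comm r p]
        congr 2
        ring
      have g3 : ((-x) / a ^ p) ^ (q * r) = -(x ^ (q * r)) / a ^ (q * r * p) := by
        rw [div_pow, (hqo.mul hro).neg_pow, ← pow_mul]
        congr 2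
        ring
      rw [g1, g2, g3]
      field_simp
      linear_combination h13
    have h15 : 1 + (z ^ q / y ^ r) ^ p ≠ 0 := by
      rw [h14]
      exact mul_ne_zero (pow_ne_zero _ (pow_ne_zero _ (div_ne_zero (pow_ne_zero _ ha) hy)))
        (pow_ne_zero _ hv)
    rcases hP.m (z ^ q / y ^ r) (a ^ q / y) (div_ne_zero (pow_ne_zero _ ha) hy)
      (div_ne_zero (pow_ne_zero _ hz) hyr) ho hpow with h16 | h16
    · exact h15 h16
    · apply h16
      rw [h14, mul_pow, pow_exp f1 hv, mul_one, ho]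

lemma roots_triv {t p : ℕ} [Fact t.Prime] (h : Nat.gcd p (t - 1) = 1) (u : ZMod t)
    (hp : p ≠ 0) (hu : u ^ p = 1) : u = 1 := by
  have hu0 : u ≠ 0 := by
    rintro rfl
    rw [zero_pow hp] at hu
    exact zero_ne_one hu
  have h1 := ZMod.pow_card_sub_one_eq_one hu0
  have h2 : u ^ (Nat.gcd p (t - 1)) = 1 := pow_gcd_eq_one.2 ⟨hu, h1⟩
  rwa [h, pow_one] at h2

/-- a Boolean form of `Cand` -/
def candB (t e p s : ℕ) : Bool :=
  or (Nat.beq (Nat.mod (Nat.succ (pw t s p)) t) 0)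
    (not (Nat.beq (pw t (Nat.succ (pw t s p)) e) (pw t (pw t (Nat.succ s) p) e)))

lemma candB_sound {t q r p s : ℕ} [Fact t.Prime] (h : candB t ((t - 1) / (q * r)) p s = true) :
    Cand t q r p (s : ZMod t) := by
  unfold candB at h
  rw [Bool.or_eq_true] at h
  rcases h with h5 | h5
  · left
    have h6 := Nat.eq_of_beq_eq_true h5
    have h7 : ((Nat.succ (pw t s p) : ℕ) : ZMod t) = 0 := by
      rw [← ZMod.natCast_mod]
      change (((Nat.succ (pw t s p)).mod t : ℕ) : ZMod t) = 0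
      rw [h6, Nat.cast_zero]
    rw [Nat.cast_succ, pw_cast] at h7
    rw [add_comm]
    exact h7
  · right
    intro h6
    have h7 : pw t (Nat.succ (pw t s p)) ((t - 1) / (q * r)) =
        pw t (pw t (Nat.succ s) p) ((t - 1) / (q * r)) := by
      apply pw_eq_of_cast
      rw [Nat.cast_succ, pw_cast, pw_cast, Nat.cast_succ, add_comm _ (1 : ZMod t),
        add_comm (s : ZMod t) 1]
      exact h6
    rw [h7, Nat.beq_refl] at h5
    exact absurd h5 (by decide)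

/-- the conditions on `p` apart from those on `s` -/
def chkP (t q r zp d p : ℕ) : Bool :=
  n1 t p ((t - 1) / (q * r)) && Nat.beq (Nat.gcd p (t - 1)) d &&
  (Nat.beq d 1 || chkRoots t p zp ((t - 1) / (q * r)))

lemma chkP_sound {t q r zp d p : ℕ} (ht : t.Prime) (hqr : 0 < q * r)
    (hqr2 : q * r * ((t - 1) / (q * r)) = t - 1) (hp : 0 < p)
    (h : chkP t q r zp d p = true) : (p : ZMod t) ^ ((t - 1) / (q * r)) ≠ 1 ∧
      (∀ u a : ZMod t, u ^ p = 1 → u ≠ 1 → a ^ (q * r) ≠ 1 - u) ∧ d ∣ p := by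
  have : Fact t.Prime := ⟨ht⟩
  unfold chkP at h
  simp only [Bool.and_eq_true] at h
  obtain ⟨⟨h1, h2⟩, h3⟩ := h
  have e2 := Nat.eq_of_beq_eq_true h2
  refine ⟨n1_sound h1, ?_, ?_⟩
  · intro u a hu hu1
    rw [Bool.or_eq_true] at h3
    rcases h3 with h3 | h3
    · have e3 := Nat.eq_of_beq_eq_true h3
      exact absurd (roots_triv (e2.trans e3) u hp.ne' hu) hu1
    · exact (chkRoots_sound hp (by rw [hqr2]) h3 u a hu hu1).resolve_right hqr.ne'
  · rw [← e2]
    exact Nat.gcd_dvd_left _ _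

/-- a full check of an entry `(t, q, r, g, zq, zr, d, [(p, zp), ...])` -/
def chkEntry (e : ℕ × ℕ × ℕ × ℕ × ℕ × ℕ × ℕ × List (ℕ × ℕ)) : Bool :=
  match e with
  | (t, q, r, g, zq, zr, d, ps) => chkPrime t && chkBase t q r zq zr d &&
    ps.all (fun x => chkP t q r x.2 d x.1) &&
    chkCand t q r g (fun s => ps.all (fun x => candB t (Nat.div (Nat.pred t) (Nat.mul q r)) x.1 s))

lemma chkBase_div {t q r zq zr d : ℕ} (h : chkBase t q r zq zr d = true) :
    q * r * ((t - 1) / (q * r)) = t - 1 ∧ r * ((t - 1) / r) = t - 1 := by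
  unfold chkBase at h
  simp only [Bool.and_eq_true] at h
  obtain ⟨⟨⟨⟨⟨⟨⟨⟨h2, h3⟩, h4⟩, h5⟩, h6⟩, h7⟩, h8⟩, h9⟩, h10⟩ := h
  exact ⟨Nat.eq_of_beq_eq_true h2, Nat.eq_of_beq_eq_true h5⟩

theorem entry_sound {t q r g zq zr d : ℕ} {ps : List (ℕ × ℕ)} (hq : Odd q) (hr : Odd r)
    (h : chkEntry (t, q, r, g, zq, zr, d, ps) = true) {p zp : ℕ} (hp : Odd p)
    (hps : (p, zp) ∈ ps) : t.Prime ∧ Aux p q r t := by
  unfold chkEntry at h
  simp only [Bool.and_eq_true] at h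
  obtain ⟨⟨⟨h1, h2⟩, h3⟩, h4⟩ := h
  have ht := chkPrime_sound h1
  have : Fact t.Prime := ⟨ht⟩
  obtain ⟨e1, e2⟩ := chkBase_div h2
  rw [List.all_eq_true] at h3
  have h3' : chkP t q r zp d p = true := h3 (p, zp) hps
  obtain ⟨g1, g2, g3⟩ := chkP_sound ht (Nat.mul_pos hq.pos hr.pos) e1 hp.pos h3'
  refine ⟨ht, aux_of ht hq hr hp h2 g3 ⟨g1, g2, ?_⟩⟩
  intro s v hv hs0 hs hpow
  have hr1 : 0 < (t - 1) / r := by
    rcases Nat.eq_zero_or_pos ((t - 1) / r) with h0 | h0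
    · rw [h0] at e2
      have := ht.one_lt
      omega
    · exact h0
  obtain ⟨n, hn, hsn⟩ := chkCand_sound hr1 e2 h4 s v hv hs0 hs hpow
  rw [List.all_eq_true] at hn
  rw [hsn]
  have hn' : candB t ((t - 1) / (q * r)) p n = true := hn (p, zp) hps
  exact candB_sound hn'

end Pool.Agent.TH21.PN
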