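import Mathlib
import Pool.Agent.TH21.PN.Check

/-!
# Table of auxiliary primes, part 1
Entries `(t, q, r, g, zq, zr, d, [(p, zp), ...])`.
-/

namespace Pool.Agent.TH21.PN

set_option maxRecDepth 1000000 in
/-- part 1 of the table -/
def tab1 : List (ℕ × ℕ × ℕ × ℕ × ℕ × ℕ × ℕ × List (ℕ × ℕ)) := [
  (2243, 19, 59, 1770, 1672, 1998, 1, [(5, 0), (7, 0), (37, 0), (61, 0)]),
  (3527, 41, 43, 649, 1488, 3140, 1, [(5, 0), (7, 0), (47, 0), (53, 0), (59, 0), (61, 0)]),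
  (3539, 29, 61, 2154, 87, 1154, 1, [(5, 0), (7, 0), (53, 0)]),
  (3923, 37, 53, 2436, 2520, 2213, 1, [(5, 0), (7, 0), (59, 0), (61, 0)]),
  (5501, 5, 11, 2048, 3901, 4772, 1, [(43, 0), (61, 0)]),
  (5741, 7, 41, 2087, 457, 371, 1, [(53, 0)]),
  (7193, 29, 31, 4862, 158, 1067, 1, [(5, 0), (7, 0), (37, 0), (41, 0), (43, 0), (47, 0), (53, 0), (59, 0), (61, 0)]),
  (10949, 7, 23, 1674, 4654, 5556, 1, [(47, 0)]),
  (12689, 13, 61, 1349, 7661, 2078, 1, [(5, 0), (7, 0), (23, 0), (29, 0), (41, 0), (47, 0)]),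
  (17291, 13, 19, 2200, 10539, 15013, 1, [(31, 0)]),
  (21713, 23, 59, 14727, 21545, 13300, 1, [(5, 0), (7, 0), (29, 0), (61, 0)]),
  (34961, 5, 23, 23222, 21560, 19818, 1, [(11, 0)]),
  (37643, 29, 59, 23731, 2794, 410, 1, [(5, 0), (7, 0), (61, 0)]),
  (50387, 59, 61, 5895, 29567, 5519, 1, [(5, 0)]),
  (51137, 17, 47, 36205, 30455, 25643, 1, [(5, 0), (7, 0), (59, 0), (61, 0)]),
  (63389, 13, 23, 21260, 38595, 59655, 1, [(5, 0), (7, 0), (29, 0), (37, 0), (43, 0)]),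
  (64109, 31, 47, 50529, 32927, 37730, 1, [(5, 0), (7, 0), (53, 0), (59, 0), (61, 0)]),
  (66083, 37, 47, 10134, 38790, 44702, 1, [(5, 0), (7, 0), (53, 0), (59, 0), (61, 0)]),
  (85691, 19, 41, 76330, 5767, 83476, 1, [(7, 0), (31, 0), (43, 0), (53, 0), (59, 0)]),
  (88643, 23, 47, 73587, 5270, 36733, 1, [(5, 0), (53, 0), (59, 0), (61, 0)]),
  (111593, 13, 29, 85281, 96719, 9278, 1, [(5, 0), (19, 0), (31, 0), (43, 0), (53, 0)]),
  (166409, 31, 61, 119146, 143938, 143627, 1, [(5, 0)]),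
  (170873, 13, 53, 14621, 93516, 134864, 1, [(5, 0), (23, 0), (43, 0), (47, 0), (59, 0), (61, 0)]),
  (190763, 13, 29, 47495, 39379, 116048, 1, [(7, 0)])]

set_option maxRecDepth 1000000 in
lemma tab1_ok : tab1.all chkEntry = true := by decide +kernel

end Pool.Agent.TH21.PN
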