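import Mathlib
import Pool.Agent.TH21.PN.Check

/-!
# Table of auxiliary primes, part 2
Entries `(t, q, r, g, zq, zr, d, [(p, zp), ...])`.
-/

namespace Pool.Agent.TH21.PN

set_option maxRecDepth 1000000 in
/-- part 2 of the table -/
def tab2 : List (ℕ × ℕ × ℕ × ℕ × ℕ × ℕ × ℕ × List (ℕ × ℕ)) := [
  (443, 13, 17, 387, 35, 123, 1, [(5, 0), (7, 0), (19, 0), (23, 0), (29, 0), (31, 0), (37, 0), (41, 0), (43, 0), (47, 0), (53, 0), (59, 0), (61, 0)]),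
  (2927, 11, 19, 1281, 1226, 941, 1, [(5, 0), (17, 0), (23, 0), (29, 0), (31, 0), (37, 0), (41, 0), (43, 0), (47, 0), (61, 0)]),
  (3659, 31, 59, 3252, 994, 403, 1, [(5, 0), (7, 0), (61, 0)]),
  (4271, 7, 61, 2359, 1368, 1039, 5, [(5, 3463)]),
  (5003, 41, 61, 621, 410, 462, 1, [(5, 0), (7, 0)]),
  (8171, 19, 43, 1098, 8108, 5693, 1, [(7, 0), (17, 0), (47, 0), (53, 0), (59, 0)]),
  (9461, 11, 43, 9343, 5060, 7888, 1, [(7, 0), (31, 0), (37, 0), (47, 0), (53, 0), (59, 0), (61, 0)]),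
  (13859, 13, 41, 9446, 5598, 12429, 1, [(5, 0), (7, 0), (19, 0), (23, 0), (29, 0), (31, 0), (43, 0), (47, 0), (53, 0), (59, 0)]),
  (14327, 13, 19, 11560, 464, 6980, 1, [(5, 0), (7, 0), (23, 0), (43, 0), (53, 0), (61, 0)]),
  (17021, 23, 37, 12423, 3391, 11912, 1, [(7, 0), (41, 0), (43, 0), (47, 0), (53, 0), (59, 0), (61, 0)]),
  (18353, 31, 37, 1371, 10741, 13735, 1, [(5, 0), (7, 0), (41, 0), (43, 0), (47, 0), (53, 0), (59, 0), (61, 0)]),
  (25841, 17, 19, 10810, 20933, 9662, 1, [(7, 0), (23, 0), (29, 0), (31, 0), (37, 0), (41, 0), (47, 0), (59, 0), (61, 0)]),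
  (45263, 53, 61, 35087, 9333, 10546, 1, [(5, 0), (11, 0)]),
  (46061, 7, 47, 15796, 39094, 41534, 5, [(5, 184)]),
  (48299, 19, 31, 13510, 16687, 17132, 1, [(5, 0), (29, 0), (37, 0), (43, 0), (53, 0), (59, 0), (61, 0)]),
  (63197, 37, 61, 50434, 46262, 53107, 1, [(5, 0)]),
  (73883, 41, 53, 53948, 15043, 26455, 1, [(5, 0), (11, 0), (59, 0), (61, 0)]),
  (76961, 13, 37, 56781, 27891, 71800, 1, [(19, 0), (41, 0), (43, 0), (47, 0), (53, 0), (59, 0), (61, 0)]),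
  (98369, 29, 53, 95756, 42150, 95118, 1, [(5, 0), (7, 0), (59, 0)]),
  (125303, 43, 47, 77320, 117638, 68877, 1, [(5, 0)]),
  (152657, 29, 47, 136636, 49841, 81633, 1, [(5, 0)]),
  (173933, 11, 59, 92298, 161756, 23144, 1, [(5, 0), (7, 0), (19, 0), (23, 0), (37, 0), (61, 0)]),
  (207443, 19, 53, 41573, 24996, 37543, 1, [(5, 0), (7, 0), (59, 0), (61, 0)]),
  (338777, 47, 53, 157516, 31917, 126168, 1, [(5, 0), (7, 0), (11, 0), (59, 0), (61, 0)])]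

set_option maxRecDepth 1000000 in
lemma tab2_ok : tab2.all chkEntry = true := by decide +kernel

end Pool.Agent.TH21.PN
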