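import Mathlib
import Pool.Agent.TH21.PN.Check

/-!
# Table of auxiliary primes, part 3
Entries `(t, q, r, g, zq, zr, d, [(p, zp), ...])`.
-/

namespace Pool.Agent.TH21.PN

set_option maxRecDepth 1000000 in
/-- part 3 of the table -/
def tab3 : List (ℕ × ℕ × ℕ × ℕ × ℕ × ℕ × ℕ × List (ℕ × ℕ)) := [
  (701, 5, 7, 128, 210, 19, 1, [(11, 0), (13, 0), (17, 0), (19, 0), (23, 0), (31, 0), (37, 0), (41, 0), (43, 0), (53, 0), (59, 0)]),
  (1787, 19, 47, 1678, 1159, 1532, 1, [(5, 0), (7, 0), (13, 0), (31, 0), (41, 0), (53, 0), (59, 0), (61, 0)]),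
  (1979, 23, 43, 817, 566, 599, 1, [(5, 0), (7, 0), (47, 0), (53, 0), (59, 0), (61, 0)]),
  (4013, 17, 59, 2123, 4003, 3466, 1, [(5, 0), (7, 0), (61, 0)]),
  (5333, 31, 43, 1717, 3670, 2454, 1, [(5, 0), (7, 0), (47, 0), (53, 0), (59, 0), (61, 0)]),
  (9311, 5, 19, 5540, 6906, 5722, 1, [(17, 0), (23, 0), (29, 0), (41, 0), (61, 0)]),
  (9677, 41, 59, 7445, 4319, 8919, 1, [(5, 0), (7, 0), (61, 0)]),
  (15467, 19, 37, 10173, 1205, 1971, 1, [(5, 0), (7, 0), (41, 0), (43, 0), (47, 0), (53, 0), (61, 0)]),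
  (17987, 17, 23, 8455, 8393, 15232, 1, [(5, 0), (7, 0), (29, 0), (31, 0), (37, 0), (41, 0), (43, 0), (47, 0), (53, 0), (59, 0), (61, 0)]),
  (18911, 31, 61, 5743, 4315, 6376, 1, [(7, 0)]),
  (20297, 43, 59, 9229, 4317, 20283, 1, [(5, 0), (7, 0), (61, 0)]),
  (34337, 29, 37, 22280, 7586, 7511, 1, [(5, 0), (7, 0), (13, 0), (41, 0), (43, 0), (47, 0), (53, 0), (59, 0), (61, 0)]),
  (36947, 7, 29, 31002, 26742, 30618, 1, [(5, 0), (19, 0)]),
  (43661, 37, 59, 21151, 27414, 42376, 1, [(7, 0), (61, 0)]),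
  (45137, 13, 31, 31289, 23919, 10309, 1, [(5, 0), (23, 0), (37, 0), (43, 0), (47, 0), (53, 0), (61, 0)]),
  (49193, 13, 43, 20856, 36126, 23954, 1, [(7, 0), (47, 0), (59, 0), (61, 0)]),
  (76913, 11, 23, 51654, 6212, 4649, 1, [(37, 0), (43, 0)]),
  (87557, 53, 59, 10405, 277, 23465, 1, [(5, 0), (61, 0)]),
  (88643, 41, 47, 73587, 19585, 36733, 1, [(5, 0), (7, 0), (53, 0), (59, 0), (61, 0)]),
  (101051, 43, 47, 42363, 13769, 51165, 1, [(7, 0), (53, 0), (59, 0), (61, 0)]),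
  (120917, 19, 43, 4497, 13571, 75849, 1, [(5, 0)]),
  (162749, 23, 61, 38794, 87461, 154902, 1, [(5, 0), (7, 0)]),
  (239243, 37, 61, 137358, 203274, 81605, 1, [(7, 0)]),
  (298169, 13, 47, 83930, 125676, 242849, 1, [(5, 0), (23, 0)])]

set_option maxRecDepth 1000000 in
lemma tab3_ok : tab3.all chkEntry = true := by decide +kernel

end Pool.Agent.TH21.PN
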