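import Mathlib
import Pool.Agent.TH21.PN.Check

/-!
# Table of auxiliary primes, part 4
Entries `(t, q, r, g, zq, zr, d, [(p, zp), ...])`.
-/

namespace Pool.Agent.TH21.PN

set_option maxRecDepth 1000000 in
/-- part 4 of the table -/
def tab4 : List (ℕ × ℕ × ℕ × ℕ × ℕ × ℕ × ℕ × List (ℕ × ℕ)) := [
  (239, 7, 17, 195, 24, 211, 1, [(31, 0), (37, 0)]),
  (617, 7, 11, 68, 420, 31, 1, [(13, 0), (17, 0), (19, 0), (23, 0), (37, 0), (47, 0), (53, 0)]),
  (2003, 11, 13, 814, 886, 633, 1, [(5, 0), (17, 0), (19, 0), (23, 0), (29, 0), (31, 0), (37, 0), (41, 0), (43, 0), (47, 0), (59, 0), (61, 0)]),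
  (2789, 17, 41, 1543, 1057, 696, 1, [(5, 0), (7, 0), (31, 0), (43, 0), (47, 0), (53, 0), (59, 0), (61, 0)]),
  (4877, 23, 53, 3692, 1276, 4504, 1, [(5, 0), (7, 0), (11, 0), (59, 0), (61, 0)]),
  (5279, 7, 13, 2314, 3689, 1891, 1, [(37, 0), (47, 0)]),
  (8807, 17, 37, 8428, 6492, 8590, 1, [(5, 0), (11, 0), (41, 0), (43, 0), (47, 0), (53, 0), (59, 0), (61, 0)]),
  (10847, 17, 29, 2495, 463, 9054, 1, [(5, 0), (7, 0), (31, 0), (37, 0), (41, 0), (43, 0), (47, 0), (53, 0), (59, 0), (61, 0)]),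
  (11093, 47, 59, 10246, 8733, 6741, 1, [(5, 0), (7, 0), (61, 0)]),
  (20399, 7, 31, 4983, 19459, 4027, 1, [(13, 0), (19, 0)]),
  (22679, 23, 29, 4306, 18517, 14762, 1, [(5, 0), (7, 0), (31, 0), (37, 0), (41, 0), (43, 0), (47, 0), (53, 0), (61, 0)]),
  (29327, 11, 31, 4863, 26064, 10791, 1, [(5, 0), (7, 0), (23, 0), (37, 0), (41, 0), (47, 0), (53, 0), (59, 0), (61, 0)]),
  (33749, 13, 59, 10015, 25991, 25612, 1, [(5, 0), (7, 0), (19, 0), (23, 0), (29, 0), (31, 0), (47, 0), (61, 0)]),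
  (47387, 29, 43, 41191, 23703, 43285, 1, [(5, 0), (7, 0), (47, 0), (53, 0), (59, 0), (61, 0)]),
  (51647, 17, 31, 42643, 10867, 46746, 1, [(5, 0), (37, 0), (43, 0), (47, 0), (53, 0), (59, 0), (61, 0)]),
  (67523, 13, 53, 7854, 34553, 62869, 7, [(7, 57482)]),
  (68963, 29, 41, 5589, 19929, 29779, 1, [(5, 0), (7, 0), (43, 0), (47, 0), (53, 0), (59, 0), (61, 0)]),
  (87557, 53, 59, 10405, 277, 23465, 7, [(7, 24272)]),
  (100937, 11, 37, 71342, 25683, 8105, 1, [(5, 0), (53, 0)]),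
  (135347, 37, 59, 49055, 124590, 123729, 1, [(5, 0)]),
  (185441, 19, 61, 13657, 59592, 165647, 1, [(7, 0), (29, 0), (41, 0), (43, 0)]),
  (209669, 43, 53, 183116, 90784, 24026, 1, [(5, 0), (7, 0), (59, 0), (61, 0)]),
  (226799, 11, 61, 192690, 166972, 26055, 1, [(7, 0), (23, 0), (37, 0), (47, 0)]),
  (292667, 11, 53, 246927, 42338, 143738, 1, [(5, 0), (13, 0), (19, 0), (59, 0)])]

set_option maxRecDepth 1000000 in
lemma tab4_ok : tab4.all chkEntry = true := by decide +kernel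

end Pool.Agent.TH21.PN
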