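import Mathlib
import Pool.Agent.TH21.PN.Check

/-!
# Table of auxiliary primes, part 5
Entries `(t, q, r, g, zq, zr, d, [(p, zp), ...])`.
-/

namespace Pool.Agent.TH21.PN

set_option maxRecDepth 1000000 in
/-- part 5 of the table -/
def tab5 : List (ℕ × ℕ × ℕ × ℕ × ℕ × ℕ × ℕ × List (ℕ × ℕ)) := [
  (1277, 11, 29, 957, 135, 964, 1, [(5, 0), (7, 0), (23, 0), (31, 0), (37, 0), (41, 0), (43, 0), (47, 0), (53, 0), (59, 0), (61, 0)]),
  (1427, 23, 31, 1337, 965, 489, 1, [(5, 0), (7, 0), (37, 0), (41, 0), (43, 0), (47, 0), (53, 0), (59, 0), (61, 0)]),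
  (1871, 5, 17, 1650, 932, 81, 1, [(53, 0)]),
  (2081, 5, 13, 277, 844, 1844, 1, [(37, 0), (43, 0)]),
  (2531, 5, 23, 874, 232, 217, 1, [(37, 0)]),
  (2543, 31, 41, 1206, 2383, 333, 1, [(5, 0), (7, 0), (43, 0), (47, 0), (53, 0), (59, 0), (61, 0)]),
  (5237, 11, 17, 980, 1343, 5102, 1, [(5, 0), (23, 0), (29, 0), (31, 0), (41, 0), (43, 0), (47, 0), (59, 0), (61, 0)]),
  (8741, 19, 23, 5989, 7296, 1992, 1, [(7, 0), (29, 0), (31, 0), (37, 0), (41, 0), (43, 0), (47, 0), (53, 0), (59, 0), (61, 0)]),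
  (22937, 47, 61, 6733, 19071, 14206, 1, [(5, 0), (7, 0)]),
  (25457, 37, 43, 14208, 20562, 14182, 1, [(5, 0), (7, 0), (47, 0), (53, 0), (59, 0), (61, 0)]),
  (27779, 17, 43, 11144, 19950, 23378, 1, [(5, 0), (7, 0), (47, 0), (53, 0), (59, 0), (61, 0)]),
  (32063, 23, 41, 6313, 13318, 5575, 1, [(5, 0), (7, 0), (11, 0), (43, 0), (47, 0), (53, 0), (59, 0), (61, 0)]),
  (47807, 11, 41, 2338, 43218, 33726, 1, [(7, 0), (43, 0), (59, 0), (61, 0)]),
  (52259, 17, 53, 29709, 347, 6393, 1, [(7, 0), (11, 0), (19, 0), (47, 0), (59, 0), (61, 0)]),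
  (54521, 29, 47, 5884, 21917, 49097, 1, [(7, 0), (13, 0), (53, 0), (59, 0), (61, 0)]),
  (66749, 11, 41, 24950, 5952, 44449, 1, [(5, 0)]),
  (77141, 19, 29, 305, 2723, 4016, 1, [(37, 0), (41, 0), (43, 0), (47, 0), (53, 0), (59, 0)]),
  (84059, 53, 61, 53791, 49425, 265, 1, [(7, 0)]),
  (120293, 17, 61, 90093, 5033, 59328, 1, [(5, 0), (7, 0)]),
  (147863, 11, 47, 132787, 55166, 144573, 1, [(5, 0), (23, 0), (37, 0), (41, 0), (59, 0)]),
  (157769, 37, 41, 70692, 125852, 93702, 1, [(5, 0), (7, 0), (11, 0), (43, 0), (47, 0), (53, 0), (59, 0), (61, 0)]),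
  (167873, 43, 61, 59713, 61197, 106364, 1, [(5, 0), (7, 0)]),
  (244733, 59, 61, 193728, 141033, 157266, 1, [(7, 0)]),
  (249737, 31, 53, 36998, 223631, 12056, 1, [(5, 0), (7, 0), (59, 0), (61, 0)])]

set_option maxRecDepth 1000000 in
lemma tab5_ok : tab5.all chkEntry = true := by decide +kernel

end Pool.Agent.TH21.PN
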