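import Mathlib
import Pool.Agent.TH21.PN.Tab1
import Pool.Agent.TH21.PN.Tab2
import Pool.Agent.TH21.PN.Tab3
import Pool.Agent.TH21.PN.Tab4
import Pool.Agent.TH21.PN.Tab5

/-!
# The first case of `x ^ (q r) + y ^ (p r) + z ^ (p q) = 0`
-/

set_option autoImplicit false

namespace Pool.Agent.TH21.PN

/-- There are no pairwise coprime integers with `X ^ (q r) + Y ^ (p r) + Z ^ (p q) = 0` such that
`X` is prime to `p`, `Y` is prime to `q` and `Z` is prime to `r`. -/
def NoFirst (p q r : ℕ) : Prop :=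
  ∀ X Y Z : ℤ, IsCoprime X Y → IsCoprime X Z → IsCoprime Y Z →
    X ^ (q * r) + Y ^ (p * r) + Z ^ (p * q) = 0 →
    IsCoprime X (p : ℤ) → IsCoprime Y (q : ℤ) → IsCoprime Z (r : ℤ) → False

lemma NoFirst.swap12 {p q r : ℕ} (h : NoFirst p q r) : NoFirst q p r := by
  intro X Y Z h1 h2 h3 h4 h5 h6 h7
  refine h Y X Z h1.symm h3 h2 ?_ h6 h5 h7
  rw [Nat.mul_comm p q]
  linear_combination h4

lemma NoFirst.swap23 {p q r : ℕ} (h : NoFirst p q r) : NoFirst p r q := by
  intro X Y Z h1 h2 h3 h4 h5 h6 h7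
  refine h X Z Y h2 h1 h3.symm ?_ h5 h7 h6
  rw [Nat.mul_comm q r]
  linear_combination h4

theorem noFirst_of_aux {p q r t : ℕ} (hp : Odd p) (hq : Odd q) (hr : Odd r) (hp1 : 1 < p)
    (hq1 : 1 < q) (hr1 : 1 < r) (hpq : Nat.Coprime p q) (hpr : Nat.Coprime p r)
    (hqr : Nat.Coprime q r) (ht : t.Prime) (h : Aux p q r t) : NoFirst p q r :=
  fun X Y Z h1 h2 h3 h4 h5 h6 h7 =>
    main p q r t hp hq hr hp1 hq1 hr1 hpq hpr hqr ht h X Y Z h1 h2 h3 h4 h5 h6 h7

lemma pow_congr {t p p' : ℕ} [Fact t.Prime] (hp : 0 < p) (hp' : 0 < p')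
    (h2 : p % (t - 1) = p' % (t - 1)) (a : ZMod t) : a ^ p = a ^ p' := by
  rcases eq_or_ne a 0 with ha | ha
  · rw [ha, zero_pow hp.ne', zero_pow hp'.ne']
  · have h3 := ZMod.pow_card_sub_one_eq_one ha
    rw [pow_eq_pow_mod p h3, pow_eq_pow_mod p' h3, h2]

/-- the conditions are periodic in `p` -/
lemma aux_congr {t p p' q r : ℕ} [Fact t.Prime] (hp : 0 < p) (hp' : 0 < p')
    (h1 : (p : ZMod t) = (p' : ZMod t)) (h2 : p % (t - 1) = p' % (t - 1)) (h : Aux p q r t) :
    Aux p' q r t := by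
  have e := pow_congr (t := t) hp hp' h2
  have e1 : ∀ (a : ZMod t) (n : ℕ), a ^ (p' * n) = a ^ (p * n) := fun a n => by
    rw [pow_mul, pow_mul, e]
  refine ⟨?_, ?_, ?_, ?_, ?_, ?_, ?_⟩
  · intro a ha; rw [← h1]; exact h.bp a ha
  · intro a ha; rw [e1]; exact h.bq a ha
  · intro a ha; rw [e1]; exact h.br a ha
  · intro u a hu; rw [← e] at hu; exact h.cp u a hu
  · intro u a hu hu1; rw [e1]; exact h.cq u a hu hu1
  · intro u a hu hu1; rw [e1]; exact h.cr u a hu hu1
  · intro x y z a b c hx hy hz h3 h4 h5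
    rw [e1] at h4 h5
    rw [← e] at h4 h5
    rw [e1, e1]
    exact h.main x y z a b c hx hy hz h3 h4 h5

/-- the whole table -/
def tab : List (ℕ × ℕ × ℕ × ℕ × ℕ × ℕ × ℕ × List (ℕ × ℕ)) := tab1 ++ tab2 ++ tab3 ++ tab4 ++ tab5

lemma tab_ok (e : ℕ × ℕ × ℕ × ℕ × ℕ × ℕ × ℕ × List (ℕ × ℕ)) (he : e ∈ tab) :
    chkEntry e = true := by
  unfold tab at he
  simp only [List.mem_append] at he
  have h1 := List.all_eq_true.1 tab1_ok
  have h2 := List.all_eq_true.1 tab2_ok
  have h3 := List.all_eq_true.1 tab3_ok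
  have h4 := List.all_eq_true.1 tab4_ok
  have h5 := List.all_eq_true.1 tab5_ok
  rcases he with (((he | he) | he) | he) | he
  · exact h1 e he
  · exact h2 e he
  · exact h3 e he
  · exact h4 e he
  · exact h5 e he

/-- the primes from `5` to `61` -/
def primesList : List ℕ := [5, 7, 11, 13, 17, 19, 23, 29, 31, 37, 41, 43, 47, 53, 59, 61]

lemma mem_primesList {p : ℕ} (hp : p.Prime) (h5 : 5 ≤ p) (h : p ≤ 61) : p ∈ primesList := by
  unfold primesList
  interval_cases p <;> first | decide | (exfalso; revert hp; norm_num)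

/-- `a` is a first member of `l` -/
def memF (a : ℕ) : List (ℕ × ℕ) → Bool
  | [] => false
  | x :: l => Nat.beq x.1 a || memF a l

lemma memF_sound {a : ℕ} {l : List (ℕ × ℕ)} (h : memF a l = true) : ∃ b, (a, b) ∈ l := by
  induction l with
  | nil => cases h
  | cons x l ih =>
    unfold memF at h
    rw [Bool.or_eq_true] at h
    rcases h with h | h
    · refine ⟨x.2, ?_⟩
      have := Nat.eq_of_beq_eq_true h
      rw [← this]
      exact List.mem_cons_self ..
    · obtain ⟨b, hb⟩ := ih h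
      exact ⟨b, List.mem_cons_of_mem _ hb⟩

/-- the entry `e` treats `p` with the pair `q, r` -/
def hit (e : ℕ × ℕ × ℕ × ℕ × ℕ × ℕ × ℕ × List (ℕ × ℕ)) (p q r : ℕ) : Bool :=
  match e with
  | (_, q', r', _, _, _, _, ps) => Nat.beq q' q && (Nat.beq r' r && memF p ps)

/-- every triple of the range is treated -/
def cov : Bool :=
  primesList.all fun p => primesList.all fun q => Nat.ble q p || primesList.all fun r =>
    Nat.ble r q || tab.any (fun e => hit e p q r || hit e q p r || hit e r p q)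

set_option maxRecDepth 1000000 in
lemma cov_ok : cov = true := by decide +kernel

lemma hit_sound {p q r : ℕ} (hp : Odd p) (hq : Odd q) (hr : Odd r) (hp1 : 1 < p)
    (hq1 : 1 < q) (hr1 : 1 < r) (hpq : Nat.Coprime p q) (hpr : Nat.Coprime p r)
    (hqr : Nat.Coprime q r) (e : ℕ × ℕ × ℕ × ℕ × ℕ × ℕ × ℕ × List (ℕ × ℕ)) (he : e ∈ tab)
    (h : hit e p q r = true) : NoFirst p q r := by
  obtain ⟨t, q', r', g, zq, zr, d, ps⟩ := e
  unfold hit at h
  simp only [Bool.and_eq_true] at h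
  obtain ⟨h1, h2, h3⟩ := h
  have h1' := Nat.eq_of_beq_eq_true h1
  have h2' := Nat.eq_of_beq_eq_true h2
  subst h1' h2'
  obtain ⟨zp, hz⟩ := memF_sound h3
  obtain ⟨ht, ha⟩ := entry_sound hq hr (tab_ok _ he) hp hz
  exact noFirst_of_aux hp hq hr hp1 hq1 hr1 hpq hpr hqr ht ha

theorem table (p q r : ℕ) (hp : p.Prime) (hq : q.Prime) (hr : r.Prime) (hp5 : 5 ≤ p) (hq5 : 5 ≤ q)
    (hr5 : 5 ≤ r) (hp61 : p ≤ 61) (hq61 : q ≤ 61) (hr61 : r ≤ 61) (hpq : p ≠ q) (hpr : p ≠ r)
    (hqr : q ≠ r) : NoFirst p q r := by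
  -- the ordered case
  have key : ∀ p q r : ℕ, p.Prime → q.Prime → r.Prime → 5 ≤ p → r ≤ 61 → p < q → q < r →
      NoFirst p q r := by
    intro p q r hp hq hr hp5 hr61 h1 h2
    have hc := cov_ok
    unfold cov at hc
    rw [List.all_eq_true] at hc
    have hc1 := hc p (mem_primesList hp hp5 (by omega))
    rw [List.all_eq_true] at hc1
    have hc2 := hc1 q (mem_primesList hq (by omega) (by omega))
    rw [Bool.or_eq_true] at hc2
    rcases hc2 with hc2 | hc2
    · have := Nat.le_of_ble_eq_true hc2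
      omega
    rw [List.all_eq_true] at hc2
    have hc3 := hc2 r (mem_primesList hr (by omega) hr61)
    rw [Bool.or_eq_true] at hc3
    rcases hc3 with hc3 | hc3
    · have := Nat.le_of_ble_eq_true hc3
      omega
    rw [List.any_eq_true] at hc3
    obtain ⟨e, he, h3⟩ := hc3
    rw [Bool.or_eq_true, Bool.or_eq_true] at h3
    have op : ∀ s : ℕ, s.Prime → 5 ≤ s → Odd s := fun s hs h5 => hs.odd_of_ne_two (by omega)
    have cp : ∀ s u : ℕ, s.Prime → u.Prime → s ≠ u → Nat.Coprime s u := fun s u hs hu hne =>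
      (Nat.coprime_primes hs hu).2 hne
    rcases h3 with (h3 | h3) | h3
    · exact hit_sound (op p hp hp5) (op q hq (by omega)) (op r hr (by omega)) (by omega) (by omega)
        (by omega) (cp _ _ hp hq (by omega)) (cp _ _ hp hr (by omega)) (cp _ _ hq hr (by omega))
        e he h3
    · exact (hit_sound (op q hq (by omega)) (op p hp hp5) (op r hr (by omega)) (by omega) (by omega)
        (by omega) (cp _ _ hq hp (by omega)) (cp _ _ hq hr (by omega)) (cp _ _ hp hr (by omega))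
        e he h3).swap12
    · exact (hit_sound (op r hr (by omega)) (op p hp hp5) (op q hq (by omega)) (by omega) (by omega)
        (by omega) (cp _ _ hr hp (by omega)) (cp _ _ hr hq (by omega)) (cp _ _ hp hq (by omega))
        e he h3).swap12.swap23
  rcases lt_or_gt_of_ne hpq with h1 | h1 <;> rcases lt_or_gt_of_ne hqr with h2 | h2 <;>
    rcases lt_or_gt_of_ne hpr with h3 | h3
  · exact key p q r hp hq hr hp5 hr61 h1 h2
  · omega
  · exact (key p r q hp hr hq hp5 hq61 h3 h2).swap23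
  · exact (key r p q hr hp hq hr5 hq61 h3 h1).swap12.swap23
  · exact (key q p r hq hp hr hq5 hr61 h1 h3).swap12
  · exact (key q r p hq hr hp hq5 hp61 h2 h3).swap23.swap12
  · omega
  · exact (key r q p hr hq hp hr5 hp61 h2 h1).swap12.swap23.swap12

/-- every pair of primes from `11` to `61` occurs with `d = 1` -/
def covPairs : Bool :=
  primesList.all fun q => Nat.ble q 10 || primesList.all fun r => Nat.ble r q ||
    tab.any (fun e => match e with
      | (t, q', r', _, _, _, _, ps) => Nat.beq q' q && (Nat.beq r' r && ps.any (fun x =>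
          Nat.beq (Nat.mod x.1 2) 1 && Nat.beq (Nat.gcd x.1 (Nat.mul t (Nat.pred t))) 1)))

set_option maxRecDepth 1000000 in
lemma covPairs_ok : covPairs = true := by decide +kernel

theorem pairs (q r : ℕ) (hq : q.Prime) (hr : r.Prime) (hq11 : 11 ≤ q) (hr11 : 11 ≤ r)
    (hq61 : q ≤ 61) (hr61 : r ≤ 61) (hqr : q ≠ r) (B : ℕ) :
    ∃ p > B, p.Prime ∧ NoFirst p q r := by
  have key : ∀ q r : ℕ, q.Prime → r.Prime → 11 ≤ q → r ≤ 61 → q < r →
      ∀ B : ℕ, ∃ p > B, p.Prime ∧ NoFirst p q r := by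
    intro q r hq hr hq11 hr61 hlt B
    have hc := covPairs_ok
    unfold covPairs at hc
    rw [List.all_eq_true] at hc
    have hc1 := hc q (mem_primesList hq (by omega) (by omega))
    rw [Bool.or_eq_true] at hc1
    rcases hc1 with hc1 | hc1
    · have := Nat.le_of_ble_eq_true hc1
      omega
    rw [List.all_eq_true] at hc1
    have hc2 := hc1 r (mem_primesList hr (by omega) hr61)
    rw [Bool.or_eq_true] at hc2
    rcases hc2 with hc2 | hc2
    · have := Nat.le_of_ble_eq_true hc2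
      omega
    rw [List.any_eq_true] at hc2
    obtain ⟨⟨t, q', r', g, zq, zr, d, ps⟩, he, h3⟩ := hc2
    simp only [Bool.and_eq_true, List.any_eq_true] at h3
    obtain ⟨h4, h5, ⟨p0, zp⟩, h6, h7, h8⟩ := h3
    have h4' := Nat.eq_of_beq_eq_true h4
    have h5' := Nat.eq_of_beq_eq_true h5
    subst h4' h5'
    have h7' : p0 % 2 = 1 := Nat.eq_of_beq_eq_true h7
    have h8' : Nat.Coprime p0 (t * (t - 1)) := Nat.eq_of_beq_eq_true h8
    have hp0 : Odd p0 := Nat.odd_iff.2 h7'
    have hqo : Odd q' := hq.odd_of_ne_two (by omega)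
    have hro : Odd r' := hr.odd_of_ne_two (by omega)
    obtain ⟨ht, ha⟩ := entry_sound hqo hro (tab_ok _ he) hp0 h6
    have : Fact t.Prime := ⟨ht⟩
    have ht0 : 0 < t * (t - 1) := Nat.mul_pos ht.pos (by have := ht.one_lt; omega)
    have : NeZero (t * (t - 1)) := ⟨ht0.ne'⟩
    obtain ⟨p, hpB, hp, hpm⟩ := Nat.forall_exists_prime_gt_and_eq_mod
      ((ZMod.unitOfCoprime p0 h8').isUnit) (B + 61)
    rw [ZMod.coe_unitOfCoprime, ZMod.natCast_eq_natCast_iff] at hpm
    have m1 : p ≡ p0 [MOD t] := hpm.of_dvd (Dvd.intro _ rfl)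
    have m2 : p ≡ p0 [MOD (t - 1)] := hpm.of_dvd (Dvd.intro_left _ rfl)
    have ha' : Aux p q' r' t := aux_congr hp0.pos hp.pos
      ((ZMod.natCast_eq_natCast_iff _ _ _).2 m1.symm) m2.symm ha
    refine ⟨p, by omega, hp, ?_⟩
    exact noFirst_of_aux (hp.odd_of_ne_two (by omega)) hqo hro hp.one_lt (by omega) (by omega)
      ((Nat.coprime_primes hp hq).2 (by omega)) ((Nat.coprime_primes hp hr).2 (by omega))
      ((Nat.coprime_primes hq hr).2 (by omega)) ht ha'
  rcases lt_or_gt_of_ne hqr with h1 | h1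
  · exact key q r hq hr hq11 hr61 h1 B
  · obtain ⟨p, h2, h3, h4⟩ := key r q hr hq hr11 hq61 h1 B
    exact ⟨p, h2, h3, h4.swap23⟩

end Pool.Agent.TH21.PN
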