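import Mathlib
import Pool.Agent.TH21.PN.Final

/-!
# Pairs `q, r` with almost all `p`
The auxiliary prime is `t = 2 q r + 1`.
-/

set_option autoImplicit false

namespace Pool.Agent.TH21.PN

lemma fam_sound {t q r g zq zr : ℕ} {f : ℕ → Bool} (hq : Odd q) (hr : Odd r)
    (hprime : chkPrime t = true) (hbase : chkBase t q r zq zr 1 = true)
    (hcand : chkCand t q r g f = true) {p : ℕ} (hp : Odd p) (hgcd : Nat.gcd p (t - 1) = 1)
    (hb : (p : ZMod t) ^ ((t - 1) / (q * r)) ≠ 1)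
    (hf : ∀ n : ℕ, f n = true → (n : ZMod t) ≠ 0 → 1 + (n : ZMod t) ≠ 0 →
      Cand t q r p (n : ZMod t)) : t.Prime ∧ Aux p q r t := by
  have ht := chkPrime_sound hprime
  have : Fact t.Prime := ⟨ht⟩
  obtain ⟨e1, e2⟩ := chkBase_div hbase
  have hr1 : 0 < (t - 1) / r := by
    rcases Nat.eq_zero_or_pos ((t - 1) / r) with h0 | h0
    · rw [h0] at e2
      have := ht.one_lt
      omega
    · exact h0
  refine ⟨ht, aux_of ht hq hr hp hbase (one_dvd p) ⟨hb, ?_, ?_⟩⟩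
  · intro u a hu hu1
    exact absurd (roots_triv hgcd u hp.pos.ne' hu) hu1
  · intro s v hv hs0 hs hpow
    obtain ⟨n, hn, hsn⟩ := chkCand_sound hr1 e2 hcand s v hv hs0 hs hpow
    rw [hsn]
    refine hf n hn ?_ ?_
    · rw [← hsn]; exact hs0
    · rw [← hsn, hs]; exact pow_ne_zero _ hv

/-- the check of an entry `(q, r, g, zq, zr)` without candidates -/
def chkFA (e : ℕ × ℕ × ℕ × ℕ × ℕ) : Bool :=
  match e with
  | (q, r, g, zq, zr) => Nat.beq (Nat.mod q 2) 1 && Nat.beq (Nat.mod r 2) 1 &&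
    Nat.ble 2 q && Nat.ble 2 r && Nat.beq (Nat.gcd q r) 1 && chkPrime (2 * (q * r) + 1) &&
    chkBase (2 * (q * r) + 1) q r zq zr 1 &&
    chkCand (2 * (q * r) + 1) q r g (fun _ => false)

/-- the test of all exponents modulo `N = t - 1` for the candidate `s` -/
def allExp (t N s : ℕ) : Bool :=
  allB (fun p => or (Nat.ble p 1) (or (Nat.ble N p) (or (not (Nat.beq (Nat.gcd p N) 1))
    (candB t 2 p s)))) (Nat.succ (Nat.log2 N)) 0

/-- the check of an entry `(q, r, g, zq, zr)` with candidates -/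
def chkFB (e : ℕ × ℕ × ℕ × ℕ × ℕ) : Bool :=
  match e with
  | (q, r, g, zq, zr) => Nat.beq (Nat.mod q 2) 1 && Nat.beq (Nat.mod r 2) 1 &&
    Nat.ble 2 q && Nat.ble 2 r && Nat.beq (Nat.gcd q r) 1 && chkPrime (2 * (q * r) + 1) &&
    chkBase (2 * (q * r) + 1) q r zq zr 1 &&
    chkCand (2 * (q * r) + 1) q r g (allExp (2 * (q * r) + 1) (2 * (q * r)))

lemma sq_ne_one {t p : ℕ} (ht : t.Prime) (h1 : p % t ≠ 1) (h2 : p % t ≠ t - 1) :
    (p : ZMod t) ^ 2 ≠ 1 := by
  have : Fact t.Prime := ⟨ht⟩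
  intro h
  have ht1 := ht.one_lt
  have h3 : ((p : ZMod t) - 1) * ((p : ZMod t) + 1) = 0 := by linear_combination h
  rcases mul_eq_zero.1 h3 with h4 | h4
  · apply h1
    have h5 : ((p : ℕ) : ZMod t) = ((1 : ℕ) : ZMod t) := by
      rw [Nat.cast_one]; exact sub_eq_zero.1 h4
    have h6 := (ZMod.natCast_eq_natCast_iff' _ _ _).1 h5
    rwa [Nat.mod_eq_of_lt ht1] at h6
  · apply h2
    have h5 : ((p : ℕ) : ZMod t) = ((t - 1 : ℕ) : ZMod t) := by
      rw [Nat.cast_sub ht1.le, ZMod.natCast_self, Nat.cast_one]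
      linear_combination h4
    have h6 := (ZMod.natCast_eq_natCast_iff' _ _ _).1 h5
    rwa [Nat.mod_eq_of_lt (show t - 1 < t by omega)] at h6

theorem chkFA_sound {q r g zq zr p : ℕ} (h : chkFA (q, r, g, zq, zr) = true) (hp : Odd p)
    (hp1 : 1 < p) (hpq : Nat.Coprime p q) (hpr : Nat.Coprime p r)
    (h1 : p % (2 * (q * r) + 1) ≠ 1) (h2 : p % (2 * (q * r) + 1) ≠ 2 * (q * r)) :
    NoFirst p q r := by
  unfold chkFA at h
  simp only [Bool.and_eq_true] at h
  obtain ⟨⟨⟨⟨⟨⟨⟨g1, g2⟩, g3⟩, g4⟩, g5⟩, g6⟩, g7⟩, g8⟩ := h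
  have hq : Odd q := Nat.odd_iff.2 (Nat.eq_of_beq_eq_true g1)
  have hr : Odd r := Nat.odd_iff.2 (Nat.eq_of_beq_eq_true g2)
  have hq1 : 1 < q := Nat.le_of_ble_eq_true g3
  have hr1 : 1 < r := Nat.le_of_ble_eq_true g4
  have hqr : Nat.Coprime q r := Nat.eq_of_beq_eq_true g5
  have ht := chkPrime_sound g6
  have hN : 2 * (q * r) + 1 - 1 = 2 * (q * r) := by omega
  have hdiv : 2 * (q * r) / (q * r) = 2 := Nat.mul_div_left _ (Nat.mul_pos hq.pos hr.pos)
  have hg : Nat.gcd p (2 * (q * r) + 1 - 1) = 1 := by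
    rw [hN]
    exact Nat.Coprime.mul_right (Nat.coprime_two_right.2 hp) (hpq.mul_right hpr)
  obtain ⟨_, ha⟩ := fam_sound hq hr g6 g7 g8 hp hg (by
    rw [hN, hdiv]
    exact sq_ne_one ht h1 (by rw [hN]; exact h2)) (fun n hn => by cases hn)
  exact noFirst_of_aux hp hq hr hp1 hq1 hr1 hpq hpr hqr ht ha

theorem chkFB_sound {q r g zq zr p : ℕ} (h : chkFB (q, r, g, zq, zr) = true) (hp : Odd p)
    (hp1 : 1 < p) (hpq : Nat.Coprime p q) (hpr : Nat.Coprime p r)
    (h0 : p % (2 * (q * r)) ≠ 1)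
    (h1 : p % (2 * (q * r) + 1) ≠ 1) (h2 : p % (2 * (q * r) + 1) ≠ 2 * (q * r)) :
    NoFirst p q r := by
  unfold chkFB at h
  simp only [Bool.and_eq_true] at h
  obtain ⟨⟨⟨⟨⟨⟨⟨g1, g2⟩, g3⟩, g4⟩, g5⟩, g6⟩, g7⟩, g8⟩ := h
  have hq : Odd q := Nat.odd_iff.2 (Nat.eq_of_beq_eq_true g1)
  have hr : Odd r := Nat.odd_iff.2 (Nat.eq_of_beq_eq_true g2)
  have hq1 : 1 < q := Nat.le_of_ble_eq_true g3
  have hr1 : 1 < r := Nat.le_of_ble_eq_true g4
  have hqr : Nat.Coprime q r := Nat.eq_of_beq_eq_true g5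
  have ht := chkPrime_sound g6
  have hF : Fact (2 * (q * r) + 1).Prime := ⟨ht⟩
  have hN : 2 * (q * r) + 1 - 1 = 2 * (q * r) := by omega
  have hqr0 : 0 < q * r := Nat.mul_pos hq.pos hr.pos
  have hdiv : 2 * (q * r) / (q * r) = 2 := Nat.mul_div_left _ hqr0
  have hg : Nat.gcd p (2 * (q * r)) = 1 :=
    Nat.Coprime.mul_right (Nat.coprime_two_right.2 hp) (hpq.mul_right hpr)
  have hg' : Nat.gcd p (2 * (q * r) + 1 - 1) = 1 := by rw [hN]; exact hg
  obtain ⟨_, ha⟩ := fam_sound hq hr g6 g7 g8 hp hg' (by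
    rw [hN, hdiv]
    exact sq_ne_one ht h1 (by rw [hN]; exact h2)) (fun n hn hn0 hn1 => by
      have hlt : p % (2 * (q * r)) < 2 * (q * r) := Nat.mod_lt _ (by omega)
      have hgm : Nat.gcd (p % (2 * (q * r))) (2 * (q * r)) = 1 := by
        rw [← Nat.gcd_rec, Nat.gcd_comm]; exact hg
      have hpos : 0 < p % (2 * (q * r)) := by
        rcases Nat.eq_zero_or_pos (p % (2 * (q * r))) with h3 | h3
        · rw [h3, Nat.gcd_zero_left] at hgm
          omega
        · exact h3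
      unfold allExp at hn
      have h4 := allB_lt hn (p % (2 * (q * r))) hlt
      rw [Bool.or_eq_true, Bool.or_eq_true, Bool.or_eq_true] at h4
      have h5 : candB (2 * (q * r) + 1) 2 (p % (2 * (q * r))) n = true := by
        rcases h4 with h4 | h4 | h4 | h4
        · have := Nat.le_of_ble_eq_true h4
          omega
        · have := Nat.le_of_ble_eq_true h4
          omega
        · rw [hgm] at h4
          exact absurd h4 (by decide)
        · exact h4
      have h6 : Cand (2 * (q * r) + 1) q r (p % (2 * (q * r))) (n : ZMod (2 * (q * r) + 1)) := by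
        apply candB_sound
        rw [hN, hdiv]
        exact h5
      have h7 : ∀ a : ZMod (2 * (q * r) + 1), a ^ p = a ^ (p % (2 * (q * r))) := fun a =>
        pow_congr hp.pos hpos (by rw [hN, Nat.mod_mod]) a
      unfold Cand at h6 ⊢
      rw [h7, h7]
      exact h6)
  exact noFirst_of_aux hp hq hr hp1 hq1 hr1 hpq hpr hqr ht ha

/-- pairs without candidates -/
def famA : List (ℕ × ℕ × ℕ × ℕ × ℕ) :=
  [(37, 149, 272, 7822, 6578), (59, 241, 2607, 27967, 10157), (101, 409, 66798, 51090, 63055),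
  (107, 349, 57118, 63077, 20279), (107, 367, 47092, 29260, 73520), (127, 419, 8943, 50572, 72721),
  (149, 181, 16672, 7917, 42857), (151, 311, 61206, 55581, 73130), (157, 389, 90492, 67184, 70439),
  (157, 467, 27226, 141570, 97709), (167, 409, 17305, 20481, 55964),
  (179, 211, 31794, 71077, 25883), (179, 499, 151636, 157323, 110272),
  (211, 359, 27067, 124824, 82470), (227, 457, 130673, 118708, 57418),
  (239, 271, 59584, 107222, 34226), (257, 307, 8007, 45655, 5625),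
  (263, 487, 249555, 117954, 229855), (313, 347, 95610, 93814, 58101),
  (433, 491, 112768, 381282, 286528), (449, 457, 390048, 4825, 352858),
  (467, 487, 47992, 280947, 266863)]

/-- pairs with candidates -/
def famB : List (ℕ × ℕ × ℕ × ℕ × ℕ) :=
  [(7, 17, 195, 24, 211), (11, 73, 1279, 1522, 286), (19, 59, 1770, 1672, 1998),
  (23, 31, 1337, 965, 489), (23, 67, 2701, 1023, 2814), (29, 61, 2154, 87, 1154),
  (29, 79, 1387, 3492, 2913), (31, 41, 1206, 2383, 333), (31, 59, 3252, 994, 403),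
  (37, 53, 2436, 2520, 2213), (41, 43, 649, 1488, 3140), (41, 61, 621, 410, 462),
  (59, 67, 1301, 503, 1703), (73, 83, 9376, 10269, 10573)]

set_option maxRecDepth 1000000 in
lemma famA_ok : famA.all chkFA = true := by decide +kernel

set_option maxRecDepth 1000000 in
lemma famB_ok : famB.all chkFB = true := by decide +kernel

/-- `(q, r)` is a pair of the list -/
def isPair (l : List (ℕ × ℕ × ℕ × ℕ × ℕ)) (q r : ℕ) : Prop :=
  ∃ e ∈ l, e.1 = q ∧ e.2.1 = r

theorem famA_thm {q r p : ℕ} (h : isPair famA q r) (hp : Odd p)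
    (hp1 : 1 < p) (hpq : Nat.Coprime p q) (hpr : Nat.Coprime p r)
    (h1 : p % (2 * (q * r) + 1) ≠ 1) (h2 : p % (2 * (q * r) + 1) ≠ 2 * (q * r)) :
    NoFirst p q r := by
  obtain ⟨⟨q', r', g, zq, zr⟩, he, rfl, rfl⟩ := h
  exact chkFA_sound (List.all_eq_true.1 famA_ok _ he) hp hp1 hpq hpr h1 h2

theorem famB_thm {q r p : ℕ} (h : isPair famB q r) (hp : Odd p)
    (hp1 : 1 < p) (hpq : Nat.Coprime p q) (hpr : Nat.Coprime p r) (h0 : p % (2 * (q * r)) ≠ 1)
    (h1 : p % (2 * (q * r) + 1) ≠ 1) (h2 : p % (2 * (q * r) + 1) ≠ 2 * (q * r)) :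
    NoFirst p q r := by
  obtain ⟨⟨q', r', g, zq, zr⟩, he, rfl, rfl⟩ := h
  exact chkFB_sound (List.all_eq_true.1 famB_ok _ he) hp hp1 hpq hpr h0 h1 h2

end Pool.Agent.TH21.PN
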